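import Mathlib
import Pool.Agent.H8.Dist.Coh3

/-!
# One-sided ideals of left and right distributive domains are Gorenstein projective

Partial answer to Q1 of MP_b53a41_al.

Let `A` be a left and right distributive domain.  Every finitely generated torsionless left or
right `A`-module (in particular every finitely generated one-sided ideal) is totally reflexive,
i.e. it is finitely generated Gorenstein projective, with a complete resolution by finitely
generated free modules.  Hence it is projective as soon as its projective dimension is finite; so
`A` is coherent on both sides, and semihereditary if its finitely generated one-sided ideals have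
finite projective dimension.

Idea of the proof.  If `b_1, …, b_n` are elements of `A`, left distributivity gives `s_j` with
sum `1` and `φ_{ji}` with `s_j b_i = φ_{ji} b_j`; the vectors `s_j e_i - φ_{ji} e_j` generate the
relations of the column `b` (check this at every maximal left ideal).  So `A` is coherent.  A
functional on the relations of `b` is given by a vector `d` over the division ring of fractions,
well defined up to right multiples of `b`, and one has to find it in `A^n`; the elements `s` of `A`
for which this can be done for `d s` form a right ideal, and it is contained in no maximal right
ideal, because `b` has a local generator on the left.  This shows that `Ext^1` of all finitely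
generated left ideals, hence of all finitely generated submodules of free modules, into `A`
vanishes.  The complete resolution is then obtained by iterated syzygies, to the left for left
modules and to the right for right modules.
-/

universe u

namespace Pool.Agent.Results.MP_b53a41_al.GorensteinProjective

open Pool.Agent.H8.Dist CategoryTheory

/-- Let `A` be a domain, left and right distributive.  Every finitely generated left `A`-module
which embeds into a finitely generated free module (in particular every finitely generated left
ideal) is totally reflexive, and it is projective if it has finite projective dimension.  The same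
holds for right modules, which are regarded as left modules over the opposite ring. -/
theorem result (A : Type u) [Ring A] [IsDomain A]
    (hl : ∀ a b c : Submodule A A, a ⊓ (b ⊔ c) = (a ⊓ b) ⊔ (a ⊓ c))
    (hr : ∀ a b c : Submodule Aᵐᵒᵖ A, a ⊓ (b ⊔ c) = (a ⊓ b) ⊔ (a ⊓ c)) :
    (∀ (M : Type u) [AddCommGroup M] [Module A M] [Module.Finite A M] (n : ℕ)
      (f : M →ₗ[A] (Fin n → A)), Function.Injective f →
        TotallyReflexive A M ∧
        ((∃ d, HasProjectiveDimensionLE (ModuleCat.of A M) d) → Module.Projective A M)) ∧
    (∀ (M : Type u) [AddCommGroup M] [Module Aᵐᵒᵖ M] [Module.Finite Aᵐᵒᵖ M] (n : ℕ)
      (f : M →ₗ[Aᵐᵒᵖ] (Fin n → A)), Function.Injective f →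
        TotallyReflexive Aᵐᵒᵖ M ∧
        ((∃ d, HasProjectiveDimensionLE (ModuleCat.of Aᵐᵒᵖ M) d) →
          Module.Projective Aᵐᵒᵖ M)) := by
  have hL := LD_of_lattice hl
  have hR := RD_of_lattice hr
  constructor
  · intro M _ _ _ n f hf
    exact ⟨totallyReflexive hL hR M f hf, fun ⟨d, hd⟩ => proj_of_dim hL hR M f hf d hd⟩
  · intro M _ _ _ n f hf
    let g : M →ₗ[Aᵐᵒᵖ] (Fin n → Aᵐᵒᵖ) :=
      { toFun := fun x i => MulOpposite.op (f x i)
        map_add' := by
          intro x y
          ext i
          simp
        map_smul' := by
          intro c x
          ext i
          simp }
    have hg : Function.Injective g := by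
      intro x y hxy
      apply hf
      ext i
      have := congrArg MulOpposite.unop (congrFun hxy i)
      exact this
    exact ⟨totallyReflexive (LD_op hR) (RD_op hL) M g hg,
      fun ⟨d, hd⟩ => proj_of_dim (LD_op hR) (RD_op hL) M g hg d hd⟩

end Pool.Agent.Results.MP_b53a41_al.GorensteinProjective
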