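import Mathlib
import Pool.Agent.H8.Nag.Props
import Pool.Agent.H8.Nag.Card

/-!
# A faithfully flat Bezout extension of a left and right distributive domain

Partial answer to Q1 of MP_b53a41_al.

Let `A` be a left and right distributive domain.  The polynomials over `A` whose coefficients lie
in no common maximal left ideal form a left and right Ore set in `A[X]`, and the ring of fractions
`B = A(X)` (the Nagata ring) is again a left and right distributive domain, it is a left and right
Bezout domain, it is faithfully flat over `A` on both sides, and its maximal left ideals correspond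
to those of `A`.  So Q1 holds for `B`, and Q1 for `A` asks whether projectivity of finitely
generated one-sided ideals descends from `B` to `A`.

Moreover, if `A` has many units compared with its maximal ideals, `A` itself is Bezout, so Q1
holds.

Idea of the proof.  The main point is a scaling lemma: if `f`, `g` are polynomials, not both zero,
then there are `r ≠ 0` and `a ≠ 0` such that `r f = a f'`, `r g = a g'` and no maximal ideal
contains all coefficients of `f'` and `g'`; locally this is the existence of a local generator,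
and the local solutions are glued by a power of `X` which commutes with all coefficients.
-/

universe u

namespace Pool.Agent.Results.MP_b53a41_al.NagataBezout

open Pool.Agent.H8.Dist Pool.Agent.H8.Nag Polynomial

/-- The coefficients of `f` lie in no common maximal left ideal (`Ideal` means left ideal). -/
def ContentOne {A : Type u} [Ring A] (f : A[X]) : Prop :=
  ∀ M : Ideal A, M.IsMaximal → ∃ n, f.coeff n ∉ M

/-- `R` is left and right distributive. -/
def Distributive (R : Type u) [Ring R] : Prop :=
  (∀ a b c : Submodule R R, a ⊓ (b ⊔ c) = (a ⊓ b) ⊔ (a ⊓ c)) ∧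
    ∀ a b c : Submodule Rᵐᵒᵖ R, a ⊓ (b ⊔ c) = (a ⊓ b) ⊔ (a ⊓ c)

/-- All finitely generated left ideals and all finitely generated right ideals of `R` are
principal. -/
def Bezout (R : Type u) [Ring R] : Prop :=
  (∀ I : Submodule R R, I.FG → ∃ a, I = Submodule.span R {a}) ∧
    ∀ I : Submodule Rᵐᵒᵖ R, I.FG → ∃ a, I = Submodule.span Rᵐᵒᵖ {a}

/-- `B` is faithfully flat over `A`, coefficients in `A` being written on the left: every linear
relation over `A` between elements of `B` follows from relations in `A`, and every finite system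
of linear equations over `A` that is solvable in `B` is solvable in `A`. -/
def LeftFaithfullyFlat {A B : Type u} [Ring A] [Ring B] (j : A →+* B) : Prop :=
  (∀ (n : ℕ) (a : Fin n → A) (x : Fin n → B), ∑ i, j (a i) * x i = 0 →
    ∃ (m : ℕ) (α : Fin n → Fin m → A) (z : Fin m → B),
      (∀ i, x i = ∑ k, j (α i k) * z k) ∧ ∀ k, ∑ i, a i * α i k = 0) ∧
  (∀ (m n : ℕ) (α : Fin m → Fin n → A) (c : Fin m → A) (x : Fin n → B),
    (∀ i, ∑ k, j (α i k) * x k = j (c i)) → ∃ y : Fin n → A, ∀ i, ∑ k, α i k * y k = c i)

/-- The same with the coefficients written on the right. -/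
def RightFaithfullyFlat {A B : Type u} [Ring A] [Ring B] (j : A →+* B) : Prop :=
  (∀ (n : ℕ) (a : Fin n → A) (x : Fin n → B), ∑ i, x i * j (a i) = 0 →
    ∃ (m : ℕ) (α : Fin n → Fin m → A) (z : Fin m → B),
      (∀ i, x i = ∑ k, z k * j (α i k)) ∧ ∀ k, ∑ i, α i k * a i = 0) ∧
  (∀ (m n : ℕ) (α : Fin m → Fin n → A) (c : Fin m → A) (x : Fin n → B),
    (∀ i, ∑ k, x k * j (α i k) = j (c i)) → ∃ y : Fin n → A, ∀ i, ∑ k, y k * α i k = c i)

section aux
variable {A : Type u} [Ring A]

theorem contentOne_iff (hL : LD A) (f : A[X]) : ContentOne f ↔ Prim f := by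
  constructor
  · intro h M hM
    obtain ⟨M', hM', hmax⟩ := isMaximal_of_isRes hM
    obtain ⟨n, hn⟩ := h M' hmax
    exact ⟨n, fun h1 => hn (by rw [← hM'] at h1; exact h1)⟩
  · intro h M hM
    exact h _ (isRes_of_isMaximal hL M hM)

theorem rff_of_op {A B : Type u} [Ring A] [Ring B] {j : A →+* B}
    (h : LeftFaithfullyFlat (RingHom.op j)) : RightFaithfullyFlat j := by
  constructor
  · intro n a x hx
    obtain ⟨m, α, z, h1, h2⟩ := h.1 n (fun i => MulOpposite.op (a i))
      (fun i => MulOpposite.op (x i)) (by
        apply MulOpposite.unop_injective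
        rw [Finset.unop_sum]
        simpa using hx)
    refine ⟨m, fun i k => (α i k).unop, fun k => (z k).unop, ?_, ?_⟩
    · intro i
      have := congrArg MulOpposite.unop (h1 i)
      rw [Finset.unop_sum] at this
      simpa using this
    · intro k
      have := congrArg MulOpposite.unop (h2 k)
      rw [Finset.unop_sum] at this
      simpa using this
  · intro m n α c x hx
    obtain ⟨y, hy⟩ := h.2 m n (fun i k => MulOpposite.op (α i k)) (fun i => MulOpposite.op (c i))
      (fun k => MulOpposite.op (x k)) (fun i => by
        apply MulOpposite.unop_injective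
        rw [Finset.unop_sum]
        simpa using hx i)
    refine ⟨fun k => (y k).unop, fun i => ?_⟩
    have := congrArg MulOpposite.unop (hy i)
    rw [Finset.unop_sum] at this
    simpa using this

theorem projective_of_bezout {R : Type u} {N : Type u} [Ring R] [IsDomain R] [AddCommGroup N]
    [Module R N] (hN : ∀ (r : R) (x : N), r • x = 0 → r = 0 ∨ x = 0) (a : N) :
    Module.Projective R (Submodule.span R {a}) := by
  by_cases ha : a = 0
  · rw [ha, Submodule.span_zero_singleton]
    infer_instance
  · have h := projective_span (R := R) (N := N) (n := 1) (fun _ => a) (fun _ _ => 1)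
      (by intro i; simp) (by
        intro x hx k
        simp only [Fin.sum_univ_one, mul_one] at hx ⊢
        exact (hN _ _ hx).resolve_right ha)
    have e : Set.range (fun _ : Fin 1 => a) = {a} := by simp
    rw [e] at h
    exact h

end aux

/-- Let `A` be a domain, left and right distributive.  Then `A[X]` has a left and right ring of
fractions `B` with respect to the polynomials with coefficients in no common maximal left ideal;
`B` is a left and right distributive, left and right Bezout domain, faithfully flat over `A` on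
both sides, with the same maximal left ideals.  And if `A` contains a set `S` of elements with
pairwise differences invertible, whose cardinality plus one exceeds the number of maximal left
ideals, then all finitely generated one-sided ideals of `A` are principal, hence projective. -/
theorem result (A : Type u) [Ring A] [IsDomain A]
    (hl : ∀ a b c : Submodule A A, a ⊓ (b ⊔ c) = (a ⊓ b) ⊔ (a ⊓ c))
    (hr : ∀ a b c : Submodule Aᵐᵒᵖ A, a ⊓ (b ⊔ c) = (a ⊓ b) ⊔ (a ⊓ c)) :
    (∃ (B : Type u) (_ : Ring B) (ι : A[X] →+* B),
      Function.Injective ι ∧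
      (∀ f, IsUnit (ι f) ↔ ContentOne f) ∧
      (∀ b, ∃ s f, ContentOne s ∧ ι s * b = ι f) ∧
      (∀ b, ∃ s f, ContentOne s ∧ b * ι s = ι f) ∧
      IsDomain B ∧ Distributive B ∧ Bezout B ∧
      LeftFaithfullyFlat (ι.comp C) ∧ RightFaithfullyFlat (ι.comp C) ∧
      (∀ M : Ideal A, M.IsMaximal →
        ∃! N : Ideal B, N.IsMaximal ∧ ∀ f, ι f ∈ N ↔ ∀ n, f.coeff n ∈ M) ∧
      (∀ N : Ideal B, N.IsMaximal →
        ∃ M : Ideal A, M.IsMaximal ∧ ∀ f, ι f ∈ N ↔ ∀ n, f.coeff n ∈ M)) ∧
    (∀ S : Set A, (∀ x ∈ S, ∀ y ∈ S, x ≠ y → IsUnit (x - y)) →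
      Cardinal.mk {M : Ideal A // M.IsMaximal} < Cardinal.mk S + 1 →
      Bezout A ∧ (∀ I : Submodule A A, I.FG → Module.Projective A I) ∧
        ∀ I : Submodule Aᵐᵒᵖ A, I.FG → Module.Projective Aᵐᵒᵖ I) := by
  have hL := LD_of_lattice hl
  have hR := RD_of_lattice hr
  constructor
  · obtain ⟨B, instB, ι, h⟩ := exists_nag hR hL
    refine ⟨B, instB, ι, h.inj, ?_, ?_, ?_, h.isDomain, ?_, ?_, ?_, ?_, ?_, ?_⟩
    · intro f
      rw [h.isUnit_iff, contentOne_iff hL]
    · intro b
      obtain ⟨s, f, hs, hf⟩ := h.fracL b
      exact ⟨s, f, (contentOne_iff hL s).2 hs, hf⟩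
    · intro b
      obtain ⟨s, f, hs, hf⟩ := h.fracR b
      exact ⟨s, f, (contentOne_iff hL s).2 hs, hf⟩
    · exact ⟨lattice_of_LD (nag_LD h hR hL), lattice_of_RD (nag_RD h hR hL)⟩
    · exact ⟨principal_left (h.bez_left hR hL), principal_right (h.bez_right hR hL)⟩
    · exact ⟨fun n a x hx => nag_flat h hR hL a x hx,
        fun m n α c x hx => nag_pure h hR hL α c x hx⟩
    · apply rff_of_op
      have e : ∀ a : Aᵐᵒᵖ, RingHom.op (ι.comp C) a = opι ι (C a) := by
        intro a
        rw [show (C a : Aᵐᵒᵖ[X]) = opp (C a.unop) by rw [opp_C]; simp, opι_opp]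
        simp
      constructor
      · intro n a x hx
        simp only [e] at hx ⊢
        exact nag_flat h.op (RD_op hL) (LD_op hR) a x hx
      · intro m n α c x hx
        simp only [e] at hx
        exact nag_pure h.op (RD_op hL) (LD_op hR) α c x hx
    · intro M hM
      have hres := isRes_of_isMaximal hL M hM
      obtain ⟨N, hN, hmax⟩ := isMaximal_of_isRes (isRes_ext h hR hL hres)
      have hNf : ∀ f, ι f ∈ N ↔ ∀ n, f.coeff n ∈ M := by
        intro f
        rw [← SetLike.mem_coe, hN, mem_ext_ι h hR hL hres]
        rfl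
      refine ⟨N, ⟨hmax, hNf⟩, ?_⟩
      rintro N' ⟨-, hN'⟩
      ext b
      obtain ⟨s, f, hs, hf⟩ := h.fracL b
      obtain ⟨U, hU⟩ := h.unit s hs
      have key : ∀ K : Ideal B, b ∈ K ↔ ι f ∈ K := by
        intro K
        constructor
        · intro hb
          rw [← hf]
          exact K.mul_mem_left _ hb
        · intro hb
          have e : b = ↑U⁻¹ * ι f := by
            rw [← hf, ← hU, ← mul_assoc, Units.inv_mul, one_mul]
          rw [e]
          exact K.mul_mem_left _ hb
      rw [key N, key N', hNf, hN']
    · intro N hN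
      obtain ⟨M, hM, hsub⟩ := exists_ext_of_left h hL N
        (fun h1 => hN.ne_top ((Ideal.eq_top_iff_one N).2 h1))
      obtain ⟨N', hN', hmax'⟩ := isMaximal_of_isRes (isRes_ext h hR hL hM)
      obtain ⟨M', hM', hmax⟩ := isMaximal_of_isRes hM
      have e : N = N' := hN.eq_of_le hmax'.ne_top (by
        intro b hb
        rw [← SetLike.mem_coe, hN']
        exact hsub hb)
      refine ⟨M', hmax, fun f => ?_⟩
      rw [e, ← SetLike.mem_coe, hN', mem_ext_ι h hR hL hM]
      unfold InP
      rw [← hM']
      rfl
  · intro S hS hcard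
    have h1 : Cardinal.mk {M : Set A // IsRes A M} < Cardinal.mk S + 1 := by
      refine lt_of_le_of_lt ?_ hcard
      choose F hF1 hF2 using (fun M : {M : Set A // IsRes A M} => isMaximal_of_isRes M.2)
      refine Cardinal.mk_le_of_injective (f := fun M => ⟨F M, hF2 M⟩) ?_
      intro M M' heq
      apply Subtype.ext
      have heq' : F M = F M' := congrArg Subtype.val heq
      rw [← hF1 M, ← hF1 M', heq']
    have h2 : Cardinal.mk {M : Set Aᵐᵒᵖ // IsRes Aᵐᵒᵖ M} < Cardinal.mk (MulOpposite.op '' S) + 1 := by
      rw [Cardinal.mk_image_eq MulOpposite.op_injective]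
      refine lt_of_le_of_lt ?_ h1
      refine Cardinal.mk_le_of_injective
        (f := fun M : {M : Set Aᵐᵒᵖ // IsRes Aᵐᵒᵖ M} =>
          (⟨MulOpposite.op ⁻¹' M.1, isRes_unop M.2⟩ : {M : Set A // IsRes A M})) ?_
      intro M M' heq
      apply Subtype.ext
      exact (Set.preimage_injective.2 MulOpposite.op_surjective) (congrArg Subtype.val heq)
    have hBR := principal_right (bez_of_card hR S hS h1)
    have hBL : ∀ I : Submodule A A, I.FG → ∃ w, I = Submodule.span A {w} := by
      apply principal_left
      intro x y
      obtain ⟨w, p, q, v, v', h3, h4, h5⟩ := bez_of_card (RD_op hL) (MulOpposite.op '' S) (by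
        rintro _ ⟨x, hx, rfl⟩ _ ⟨y, hy, rfl⟩ hne
        have := (hS x hx y hy (fun h => hne (by rw [h]))).op
        simpa using this) h2 (MulOpposite.op x) (MulOpposite.op y)
      refine ⟨w.unop, p.unop, q.unop, v.unop, v'.unop, ?_, ?_, ?_⟩
      · rw [h3]; simp
      · have := congrArg MulOpposite.unop h4
        simpa using this
      · have := congrArg MulOpposite.unop h5
        simpa using this
    refine ⟨⟨hBL, hBR⟩, ?_, ?_⟩
    · intro I hI
      obtain ⟨w, rfl⟩ := hBL I hI
      exact projective_of_bezout (fun r x h => mul_eq_zero.1 h) w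
    · intro I hI
      obtain ⟨w, rfl⟩ := hBR I hI
      refine projective_of_bezout (fun r x h => ?_) w
      rw [MulOpposite.smul_eq_mul_unop] at h
      rcases mul_eq_zero.1 h with h | h
      · exact Or.inr h
      · exact Or.inl (by simpa using h)

end Pool.Agent.Results.MP_b53a41_al.NagataBezout
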