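import Mathlib

/-!
# Distributive domains are semihereditary under a trace / exchange condition on the residues

Partial answer to Q1 of MP_b53a41_al.

Idea of the proof.  Every maximal one-sided ideal `M` of a left and right distributive domain `A`
is two-sided, `A / M` is a division ring, and `A` is Ore at `M`; locally at `M` every finitely
generated one-sided ideal is principal.  Let `I = ∑ a_k A` be a finitely generated right ideal,
inside the division ring `D` of fractions of `A`.  One finds elements `φ_k` of `D` with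
`φ_k I ⊆ A` and `∑ φ_k a_k` equal to a prescribed unit, by localizing on the left.
The element `c = ∑ a_k φ_k` then lies in the trace ideal and its local behaviour at `M` is
controlled by the sum of the elements `φ_k a_k` in the reverse order, so that
`c` acts invertibly at each `M` as soon as a sum of commutators is excluded; at the remaining
maximal ideals the exchange property allows to modify the `φ_k` by elements which
separate the places where each `a_k` is a local generator.
-/

universe u

namespace Pool.Agent.Results.MP_b53a41_al.TraceExchange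

/-- `IsRes A M`: the set `M` is a two-sided ideal of `A` such that `A / M` is a division ring
(used only inside the proof). -/
structure IsRes (A : Type u) [Ring A] (M : Set A) : Prop where
  zero : (0 : A) ∈ M
  add : ∀ x ∈ M, ∀ y ∈ M, x + y ∈ M
  mul_left : ∀ a, ∀ x ∈ M, a * x ∈ M
  mul_right : ∀ a, ∀ x ∈ M, x * a ∈ M
  one : (1 : A) ∉ M
  inv : ∀ x, x ∉ M → ∃ y, x * y - 1 ∈ M ∧ y * x - 1 ∈ M

/-- Element-wise form of right distributivity (used only inside the proof). -/
def RD (A : Type u) [Ring A] : Prop :=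
  ∀ a b : A, ∃ x y z : A, a * x = b * y ∧ b * (1 - x) = a * z

/-- Element-wise form of left distributivity (used only inside the proof). -/
def LD (A : Type u) [Ring A] : Prop :=
  ∀ a b : A, ∃ x y z : A, x * a = y * b ∧ (1 - x) * b = z * a

section basics
variable {A : Type u} [Ring A] {M : Set A}

theorem IsRes.neg (h : IsRes A M) {x : A} (hx : x ∈ M) : -x ∈ M := by
  have := h.mul_left (-1) x hx
  simpa using this

theorem IsRes.sub (h : IsRes A M) {x y : A} (hx : x ∈ M) (hy : y ∈ M) : x - y ∈ M := by
  rw [sub_eq_add_neg]; exact h.add _ hx _ (h.neg hy)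

theorem IsRes.sum (h : IsRes A M) {ι : Type*} (s : Finset ι) (f : ι → A)
    (hf : ∀ i ∈ s, f i ∈ M) : ∑ i ∈ s, f i ∈ M := by
  classical
  induction s using Finset.induction_on with
  | empty => simpa using h.zero
  | insert a s ha ih =>
    rw [Finset.sum_insert ha]
    exact h.add _ (hf _ (Finset.mem_insert_self _ _)) _
      (ih (fun i hi => hf i (Finset.mem_insert_of_mem hi)))

theorem IsRes.prime (h : IsRes A M) {x y : A} (hx : x ∉ M) (hy : y ∉ M) : x * y ∉ M := by
  intro hxy
  obtain ⟨x', -, hx'⟩ := h.inv x hx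
  apply hy
  have h1 : x' * (x * y) ∈ M := h.mul_left _ _ hxy
  have h2 : (x' * x - 1) * y ∈ M := h.mul_right _ _ hx'
  have h3 := h.sub h1 h2
  have h4 : x' * (x * y) - (x' * x - 1) * y = y := by noncomm_ring
  rwa [h4] at h3

theorem ore_right (hR : RD A) (h : IsRes A M) (b t : A) (ht : t ∉ M) :
    ∃ t' b', t' ∉ M ∧ b * t' = t * b' := by
  obtain ⟨x, y, z, h1, h2⟩ := hR b t
  by_cases hx : x ∈ M
  · have h1x : 1 - x ∉ M := by
      intro hh
      apply h.one
      have := h.add _ hh _ hx
      simpa using this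
    have hz : z ∉ M := by
      intro hz
      have h3 : b * z ∈ M := h.mul_left _ _ hz
      rw [← h2] at h3
      exact h.prime ht h1x h3
    exact ⟨z, 1 - x, hz, h2.symm⟩
  · exact ⟨x, y, hx, h1⟩

theorem ore_left (hL : LD A) (h : IsRes A M) (b t : A) (ht : t ∉ M) :
    ∃ t' b', t' ∉ M ∧ t' * b = b' * t := by
  obtain ⟨x, y, z, h1, h2⟩ := hL b t
  by_cases hx : x ∈ M
  · have h1x : 1 - x ∉ M := by
      intro hh
      apply h.one
      have := h.add _ hh _ hx
      simpa using this
    have hz : z ∉ M := by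
      intro hz
      have h3 : z * b ∈ M := h.mul_right _ _ hz
      rw [← h2] at h3
      exact h.prime h1x ht h3
    exact ⟨z, 1 - x, hz, h2.symm⟩
  · exact ⟨x, y, hx, h1⟩

/-- finite version of the right Ore condition -/
theorem ore_right_fin (hR : RD A) (h : IsRes A M) {n : ℕ} (b s : Fin n → A)
    (hs : ∀ k, s k ∉ M) : ∃ (t : A) (b' : Fin n → A), t ∉ M ∧ ∀ k, b k * t = s k * b' k := by
  induction n with
  | zero => exact ⟨1, fun _ => 0, h.one, fun k => k.elim0⟩
  | succ n ih =>
    obtain ⟨t, b', ht, hb'⟩ := ih (fun k => b k.succ) (fun k => s k.succ) (fun k => hs _)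
    obtain ⟨t', c, ht', hc⟩ := ore_right hR h (b 0 * t) (s 0) (hs 0)
    refine ⟨t * t', Fin.cons c (fun k => b' k * t'), h.prime ht ht', ?_⟩
    intro k
    refine Fin.cases ?_ (fun k => ?_) k
    · simp only [Fin.cons_zero]
      rw [← mul_assoc, hc]
    · simp only [Fin.cons_succ]
      rw [← mul_assoc, hb' k, mul_assoc]

theorem ore_left_fin (hL : LD A) (h : IsRes A M) {n : ℕ} (b s : Fin n → A)
    (hs : ∀ k, s k ∉ M) : ∃ (t : A) (b' : Fin n → A), t ∉ M ∧ ∀ k, t * b k = b' k * s k := by
  induction n with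
  | zero => exact ⟨1, fun _ => 0, h.one, fun k => k.elim0⟩
  | succ n ih =>
    obtain ⟨t, b', ht, hb'⟩ := ih (fun k => b k.succ) (fun k => s k.succ) (fun k => hs _)
    obtain ⟨t', c, ht', hc⟩ := ore_left hL h (t * b 0) (s 0) (hs 0)
    refine ⟨t' * t, Fin.cons c (fun k => t' * b' k), h.prime ht' ht, ?_⟩
    intro k
    refine Fin.cases ?_ (fun k => ?_) k
    · simp only [Fin.cons_zero]
      rw [mul_assoc, hc]
    · simp only [Fin.cons_succ]
      rw [mul_assoc, hb' k, mul_assoc]

/-- A generator that is locally (at `M`) a generator of the right ideal. -/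
theorem exists_local_gen (hR : RD A) (h : IsRes A M) {n : ℕ} (a : Fin n → A) (i₀ : Fin n) :
    ∃ j, ∀ i, ∃ s b, s ∉ M ∧ a i * s = a j * b := by
  classical
  have key : ∀ S : Finset (Fin n), S.Nonempty →
      ∃ j ∈ S, ∀ i ∈ S, ∃ s b, s ∉ M ∧ a i * s = a j * b := by
    intro S hS
    induction hS using Finset.Nonempty.cons_induction with
    | singleton i =>
      refine ⟨i, by simp, ?_⟩
      intro i' hi'
      rw [Finset.mem_singleton] at hi'
      subst hi'
      exact ⟨1, 1, h.one, rfl⟩
    | cons i S hi hS ih =>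
      obtain ⟨j, hj, hjS⟩ := ih
      obtain ⟨x, y, z, h1, h2⟩ := hR (a i) (a j)
      by_cases hx : x ∈ M
      · have h1x : 1 - x ∉ M := by
          intro hh
          apply h.one
          have := h.add _ hh _ hx
          simpa using this
        refine ⟨i, by simp, ?_⟩
        intro i' hi'
        rw [Finset.mem_cons] at hi'
        rcases hi' with rfl | hi'
        · exact ⟨1, 1, h.one, rfl⟩
        · obtain ⟨s, b, hs, hsb⟩ := hjS i' hi'
          obtain ⟨t', b', ht', hb'⟩ := ore_right hR h b (1 - x) h1x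
          refine ⟨s * t', z * b', h.prime hs ht', ?_⟩
          rw [← mul_assoc, hsb, mul_assoc, hb', ← mul_assoc, h2, mul_assoc]
      · refine ⟨j, by simp [hj], ?_⟩
        intro i' hi'
        rw [Finset.mem_cons] at hi'
        rcases hi' with rfl | hi'
        · exact ⟨x, y, hx, h1⟩
        · exact hjS i' hi'
  obtain ⟨j, -, hj⟩ := key Finset.univ ⟨i₀, Finset.mem_univ _⟩
  exact ⟨j, fun i => hj i (Finset.mem_univ _)⟩

/-- In a left distributive ring every maximal left ideal is a two-sided ideal with a division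
ring as factor ring. -/
theorem isRes_of_isMaximal (hL : LD A) (M : Ideal A) (hM : M.IsMaximal) : IsRes A (M : Set A) := by
  have h1 : (1 : A) ∉ M := fun h => hM.ne_top ((Ideal.eq_top_iff_one M).2 h)
  have hinv : ∀ x, x ∉ M → ∃ b, b * x - 1 ∈ M := by
    intro x hx
    obtain ⟨b, m, hm⟩ := Ideal.mem_span_singleton_sup.1 (show (1 : A) ∈ Ideal.span {x} ⊔ M by
      have : Ideal.span {x} ⊔ M = ⊤ := by
        by_contra hne
        have hle : M ≤ Ideal.span {x} ⊔ M := le_sup_right
        have := hM.eq_of_le hne hle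
        apply hx
        rw [this]
        exact (le_sup_left : Ideal.span {x} ≤ Ideal.span {x} ⊔ M) (Ideal.mem_span_singleton_self x)
      rw [this]; trivial)
    obtain ⟨hm1, hm2⟩ := hm
    refine ⟨b, ?_⟩
    have : b * x - 1 = -m := by rw [← hm2]; abel
    rw [this]
    exact M.neg_mem hm1
  have hr : ∀ a, ∀ m ∈ M, m * a ∈ M := by
    intro a m hm
    by_contra hma
    obtain ⟨b, hb⟩ := hinv (m * a) hma
    set m1 := 1 - b * (m * a) with hm1
    have hm1M : m1 ∈ M := by
      have := M.neg_mem hb
      rwa [neg_sub] at this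
    set μ := a * b * m with hμ
    have hμM : μ ∈ M := M.mul_mem_left _ hm
    set ν := 1 - μ with hν
    have hνa : ν * a ∈ M := by
      have : ν * a = a * m1 := by rw [hν, hμ, hm1]; noncomm_ring
      rw [this]; exact M.mul_mem_left _ hm1M
    obtain ⟨x, y, z, hx, hz⟩ := hL (μ + a * ν) μ
    have aux : ∀ w : A, w * (μ + a * ν) ∈ M → w * a ∈ M := by
      intro w hw
      have e : w * a = w * (μ + a * ν) - w * μ + (w * a) * μ := by rw [hν]; noncomm_ring
      rw [e]
      exact M.add_mem (M.sub_mem hw (M.mul_mem_left _ hμM)) (M.mul_mem_left _ hμM)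
    have hxa : x * a ∈ M := aux x (by rw [hx]; exact M.mul_mem_left _ hμM)
    have hza : z * a ∈ M := aux z (by rw [← hz]; exact M.mul_mem_left _ hμM)
    have h3 : z * (μ + a * ν) * a ∈ M := by
      have e : z * (μ + a * ν) * a = z * a - z * (ν * a) + (z * a) * (ν * a) := by
        rw [hν]; noncomm_ring
      rw [e]
      exact M.add_mem (M.sub_mem hza (M.mul_mem_left _ hνa)) (M.mul_mem_left _ hνa)
    rw [← hz] at h3
    have h4 : a ∈ M := by
      have e : a = (1 - x) * μ * a + (1 - x) * (ν * a) + x * a := by rw [hν]; noncomm_ring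
      rw [e]
      exact M.add_mem (M.add_mem h3 (M.mul_mem_left _ hνa)) hxa
    exact hma (M.mul_mem_left _ h4)
  refine ⟨M.zero_mem, fun x hx y hy => M.add_mem hx hy, fun a x hx => M.mul_mem_left a hx,
    fun a x hx => hr a x hx, h1, ?_⟩
  intro x hx
  obtain ⟨b, hb⟩ := hinv x hx
  have hbM : b ∉ M := by
    intro hbM
    apply h1
    have := M.sub_mem (hr x b hbM) hb
    simpa using this
  obtain ⟨b', hb'⟩ := hinv b hbM
  refine ⟨b, ?_, hb⟩
  have e : x * b - 1 = -((b' * b - 1) * (x * b)) + b' * (b * x - 1) * b + (b' * b - 1) := by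
    noncomm_ring
  rw [SetLike.mem_coe, e]
  refine M.add_mem (M.add_mem (M.neg_mem (hr _ _ hb')) (hr _ _ (M.mul_mem_left _ hb))) hb'

theorem exists_res_of_left (hL : LD A) (H : Ideal A) (h1 : (1 : A) ∉ H) :
    ∃ M : Set A, IsRes A M ∧ (H : Set A) ⊆ M := by
  obtain ⟨M, hM, hHM⟩ := Ideal.exists_le_maximal H (fun h => h1 (by rw [h]; trivial))
  exact ⟨M, isRes_of_isMaximal hL M hM, hHM⟩

theorem LD_op (hR : RD A) : LD Aᵐᵒᵖ := by
  intro a b
  obtain ⟨x, y, z, h1, h2⟩ := hR a.unop b.unop
  refine ⟨MulOpposite.op x, MulOpposite.op y, MulOpposite.op z, ?_, ?_⟩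
  · apply MulOpposite.unop_injective
    simpa using h1
  · apply MulOpposite.unop_injective
    simpa using h2

theorem RD_op (hL : LD A) : RD Aᵐᵒᵖ := by
  intro a b
  obtain ⟨x, y, z, h1, h2⟩ := hL a.unop b.unop
  refine ⟨MulOpposite.op x, MulOpposite.op y, MulOpposite.op z, ?_, ?_⟩
  · apply MulOpposite.unop_injective
    simpa using h1
  · apply MulOpposite.unop_injective
    simpa using h2

theorem isRes_unop {M : Set Aᵐᵒᵖ} (h : IsRes Aᵐᵒᵖ M) : IsRes A (MulOpposite.op ⁻¹' M) where
  zero := h.zero
  add := fun x hx y hy => h.add _ hx _ hy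
  mul_left := fun a x hx => by
    have := h.mul_right (MulOpposite.op a) _ hx
    simpa using this
  mul_right := fun a x hx => by
    have := h.mul_left (MulOpposite.op a) _ hx
    simpa using this
  one := h.one
  inv := fun x hx => by
    obtain ⟨y, h1, h2⟩ := h.inv _ hx
    exact ⟨y.unop, by simpa using h2, by simpa using h1⟩

theorem exists_res_of_right (hR : RD A) (H : Submodule Aᵐᵒᵖ A) (h1 : (1 : A) ∉ H) :
    ∃ M : Set A, IsRes A M ∧ (H : Set A) ⊆ M := by
  let H' : Ideal Aᵐᵒᵖ :=
    { carrier := {x | x.unop ∈ H}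
      zero_mem' := H.zero_mem
      add_mem' := fun {x y} hx hy => H.add_mem hx hy
      smul_mem' := fun c x hx => by
        have := H.smul_mem c hx
        simpa using this }
  obtain ⟨M, hM, hHM⟩ := exists_res_of_left (LD_op hR) H' (fun h => h1 h)
  refine ⟨_, isRes_unop hM, ?_⟩
  intro x hx
  exact hHM (show MulOpposite.op x ∈ H' from hx)

end basics


section core
variable {A : Type u} [Ring A] [IsDomain A]

open OreLocalization in
theorem exists_divisionRing (hL : LD A) :
    ∃ (D : Type u) (_ : DivisionRing D) (ι : A →+* D), Function.Injective ι := by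
  classical
  have hore : Nonempty (OreSet (nonZeroDivisors A)) := by
    rw [nonempty_oreSet_iff_of_noZeroDivisors]
    intro r s
    have hs : (s : A) ≠ 0 := nonZeroDivisors.coe_ne_zero s
    obtain ⟨x, y, z, h1, h2⟩ := hL r s
    by_cases hx : x = 0
    · subst hx
      have hz : z ≠ 0 := by
        rintro rfl
        apply hs
        simp at h2
      exact ⟨1, ⟨z, mem_nonZeroDivisors_of_ne_zero hz⟩, by simpa using h2.symm⟩
    · exact ⟨y, ⟨x, mem_nonZeroDivisors_of_ne_zero hx⟩, by simpa using h1⟩
  obtain ⟨hore⟩ := hore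
  let _ := hore
  refine ⟨OreLocalization (nonZeroDivisors A) A, inferInstance,
    OreLocalization.numeratorRingHom, ?_⟩
  exact numeratorHom_inj (fun x hx => hx.1)

theorem core (hR : RD A) (hL : LD A) (𝓜 : Set (Set A)) (ω : A)
    (hω : ∀ M, IsRes A M → ω ∉ M)
    (hgood : ∀ M, IsRes A M → M ∉ 𝓜 → ∀ (n : ℕ) (m α : Fin n → A),
      ¬ ((∑ k, m k * α k) - ω ∈ M ∧ (∑ k, α k * m k) ∈ M))
    (hbad : ∀ (n : ℕ) (y : Fin n → A), ∑ k, y k = 1 → ∃ θ : Fin n → A,
      ∀ M, IsRes A M → M ∈ 𝓜 → ∃ k₀, (θ k₀ * y k₀ - 1 ∈ M) ∧ ∀ k, k ≠ k₀ → θ k ∈ M)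
    (n : ℕ) (a : Fin n → A) :
    ∃ E : Fin n → Fin n → A, (∀ i, ∑ k, a k * E k i = a i) ∧
      ∀ x : Fin n → A, ∑ i, a i * x i = 0 → ∀ k, ∑ i, E k i * x i = 0 := by
  classical
  by_cases ha : ∀ i, a i = 0
  · exact ⟨fun _ _ => 0, fun i => by simp [ha], fun x _ k => by simp⟩
  push Not at ha
  obtain ⟨i₀, hi₀⟩ := ha
  obtain ⟨D, _, ι, hι⟩ := exists_divisionRing hL
  -- the local generator at `M`
  have hloc : ∀ M, IsRes A M → ∃ (j : Fin n) (s b : Fin n → A), (∀ i, s i ∉ M) ∧
      (∀ i, a i * s i = a j * b i) := by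
    intro M hM
    obtain ⟨j, hj⟩ := exists_local_gen hR hM a i₀
    choose s b hs hsb using hj
    exact ⟨j, s, b, hs, hsb⟩
  have hlocne : ∀ M, IsRes A M → ∀ (j : Fin n) (s b : Fin n → A), (∀ i, s i ∉ M) →
      (∀ i, a i * s i = a j * b i) → a j ≠ 0 := by
    intro M hM j s b hs hsb hj
    have := hsb i₀
    rw [hj, zero_mul] at this
    rcases mul_eq_zero.1 this with h | h
    · exact hi₀ h
    · exact hs i₀ (by rw [h]; exact hM.zero)
  -- Step 1: the trace ideal is everything.
  obtain ⟨φ, m, hφm, hφ1⟩ : ∃ (φ : Fin n → D) (m : Fin n → Fin n → A),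
      (∀ k i, φ k * ι (a i) = ι (m k i)) ∧ ∑ k, m k k = 1 := by
    let H : Ideal A :=
      { carrier := {r | ∃ (φ : Fin n → D) (m : Fin n → Fin n → A),
          (∀ k i, φ k * ι (a i) = ι (m k i)) ∧ ∑ k, m k k = r}
        zero_mem' := ⟨fun _ => 0, fun _ _ => 0, fun k i => by simp, by simp⟩
        add_mem' := by
          rintro r r' ⟨φ, m, h1, h2⟩ ⟨φ', m', h1', h2'⟩
          refine ⟨fun k => φ k + φ' k, fun k i => m k i + m' k i, ?_, ?_⟩
          · intro k i
            rw [add_mul, h1, h1', map_add]
          · rw [Finset.sum_add_distrib, h2, h2']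
        smul_mem' := by
          rintro c r ⟨φ, m, h1, h2⟩
          refine ⟨fun k => ι c * φ k, fun k i => c * m k i, ?_, ?_⟩
          · intro k i
            rw [mul_assoc, h1, map_mul]
          · rw [smul_eq_mul, ← h2, Finset.mul_sum] }
    have h1 : (1 : A) ∈ H := by
      by_contra h1
      obtain ⟨M, hM, hHM⟩ := exists_res_of_left hL H h1
      obtain ⟨j, s, b, hs, hsb⟩ := hloc M hM
      have hj := hlocne M hM j s b hs hsb
      obtain ⟨t, b', ht, hb'⟩ := ore_left_fin hL hM b s hs
      have hjD : ι (a j) ≠ 0 := fun h => hj (hι (by rw [h, map_zero]))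
      have hsne : ∀ i, ι (s i) ≠ 0 := fun i h => hs i (by
        have : s i = 0 := hι (by rw [h, map_zero])
        rw [this]; exact hM.zero)
      -- `d = t * (a j)⁻¹`
      set d : D := ι t * (ι (a j))⁻¹ with hd
      have hda : ∀ i, d * ι (a i) = ι (b' i) := by
        intro i
        apply mul_right_cancel₀ (hsne i)
        rw [mul_assoc, ← map_mul, hsb i, ← map_mul, ← hb' i, hd, map_mul, map_mul, mul_assoc,
          inv_mul_cancel_left₀ hjD]
      have hmem : t ∈ H := by
        refine ⟨Pi.single j d, fun k i => if k = j then b' i else 0, ?_, ?_⟩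
        · intro k i
          by_cases hk : k = j
          · subst hk
            simp [hda]
          · simp [hk]
        · rw [Finset.sum_ite_eq' Finset.univ j]
          simp only [Finset.mem_univ, if_true]
          apply hι
          rw [← hda j, hd, inv_mul_cancel_right₀ hjD]
      exact ht (hHM hmem)
    obtain ⟨φ, m, h1, h2⟩ := h1
    exact ⟨φ, m, h1, h2⟩
  -- Step 2: modify by the separating elements
  obtain ⟨θ, hθ⟩ := hbad n (fun k => m k k) hφ1
  obtain ⟨η, hη⟩ : ∃ η : A, η = 1 - ∑ k, θ k * m k k := ⟨_, rfl⟩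
  have hηM : ∀ M, IsRes A M → M ∈ 𝓜 → η ∈ M := by
    intro M hM hMM
    obtain ⟨k₀, h1, h2⟩ := hθ M hM hMM
    have e : η = -(θ k₀ * m k₀ k₀ - 1) - ∑ k ∈ Finset.univ.erase k₀, θ k * m k k := by
      rw [hη, ← Finset.add_sum_erase _ _ (Finset.mem_univ k₀)]
      abel
    rw [e]
    refine hM.sub (hM.neg h1) (hM.sum _ _ ?_)
    intro k hk
    exact hM.mul_right _ _ (h2 k (Finset.ne_of_mem_erase hk))
  obtain ⟨m', hm'⟩ : ∃ m' : Fin n → Fin n → A,
      m' = fun k i => (ω * (θ k + η)) * m k i := ⟨_, rfl⟩
  have hm'1 : ∑ k, m' k k = ω := by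
    simp only [hm', mul_assoc, ← Finset.mul_sum, add_mul, Finset.sum_add_distrib, hφ1]
    rw [hη]; noncomm_ring
  obtain ⟨φ', hφ'⟩ : ∃ φ' : Fin n → D, φ' = fun k => ι (ω * (θ k + η)) * φ k := ⟨_, rfl⟩
  have hφ'm : ∀ k i, φ' k * ι (a i) = ι (m' k i) := by
    intro k i
    rw [hφ', hm']
    simp only
    rw [mul_assoc, hφm, ← map_mul]
  obtain ⟨c, hc⟩ : ∃ c : D, c = ∑ k, ι (a k) * φ' k := ⟨_, rfl⟩
  obtain ⟨C, hC⟩ : ∃ C : Fin n → A, C = fun i => ∑ k, a k * m' k i := ⟨_, rfl⟩
  have hcC : ∀ i, c * ι (a i) = ι (C i) := by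
    intro i
    rw [hc, hC, Finset.sum_mul, map_sum]
    refine Finset.sum_congr rfl fun k _ => ?_
    rw [mul_assoc, hφ'm, map_mul]
  -- Step 3: `a i ∈ ∑ C j A`
  have hmem : ∀ i, ∃ x : Fin n → A, ∑ j, C j * x j = a i := by
    intro i
    let H : Submodule Aᵐᵒᵖ A :=
      { carrier := {s | ∃ x : Fin n → A, ∑ j, C j * x j = a i * s}
        zero_mem' := ⟨fun _ => 0, by simp⟩
        add_mem' := by
          rintro s s' ⟨x, hx⟩ ⟨x', hx'⟩
          refine ⟨fun j => x j + x' j, ?_⟩
          simp only [mul_add, Finset.sum_add_distrib, hx, hx']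
        smul_mem' := by
          rintro r s ⟨x, hx⟩
          refine ⟨fun j => x j * r.unop, ?_⟩
          have : r • s = s * r.unop := rfl
          rw [this, ← mul_assoc, ← hx, Finset.sum_mul]
          simp only [mul_assoc] }
    have h1 : (1 : A) ∈ H := by
      by_contra h1
      obtain ⟨M, hM, hHM⟩ := exists_res_of_right hR H h1
      obtain ⟨j, s, b, hs, hsb⟩ := hloc M hM
      have hj := hlocne M hM j s b hs hsb
      -- relation m' k k * s k = m' k j * b k
      have hrel : ∀ k, m' k k * s k = m' k j * b k := by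
        intro k
        apply hι
        rw [map_mul, map_mul, ← hφ'm, ← hφ'm, mul_assoc, mul_assoc, ← map_mul, ← map_mul, hsb]
      obtain ⟨t, m'', ht, hm''⟩ := ore_right_fin hR hM (fun k => m' k j) s hs
      obtain ⟨g, hg⟩ : ∃ g : A, g = ∑ k, b k * m'' k := ⟨_, rfl⟩
      have hCg : C j * t = a j * g := by
        rw [hC, hg, Finset.sum_mul, Finset.mul_sum]
        refine Finset.sum_congr rfl fun k _ => ?_
        rw [mul_assoc, hm'' k, ← mul_assoc, hsb k, mul_assoc]
      have hgM : g ∉ M := by
        intro hgM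
        choose σ hσ1 hσ2 using fun k => hM.inv (s k) (hs k)
        obtain ⟨α, hα⟩ : ∃ α : Fin n → A, α = fun k => b k * σ k := ⟨_, rfl⟩
        have e1 : (∑ k, m' k j * α k) - ω ∈ M := by
          have : (∑ k, m' k j * α k) - ω = ∑ k, m' k k * (s k * σ k - 1) := by
            have e0 : ∀ k, m' k k * (s k * σ k - 1) = m' k j * α k - m' k k := by
              intro k
              rw [hα]
              simp only
              rw [← mul_assoc, ← hrel k]
              noncomm_ring
            simp only [e0, Finset.sum_sub_distrib, hm'1]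
          rw [this]
          exact hM.sum _ _ fun k _ => hM.mul_left _ _ (hσ1 k)
        have e2 : (∑ k, α k * m' k j) * t ∈ M := by
          have : (∑ k, α k * m' k j) * t = g + ∑ k, b k * ((σ k * s k - 1) * m'' k) := by
            rw [hg, Finset.sum_mul, ← Finset.sum_add_distrib]
            refine Finset.sum_congr rfl fun k _ => ?_
            rw [hα]
            simp only
            rw [mul_assoc, hm'' k]
            noncomm_ring
          rw [this]
          exact hM.add _ hgM _ (hM.sum _ _ fun k _ =>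
            hM.mul_left _ _ (hM.mul_right _ _ (hσ2 k)))
        have e3 : (∑ k, α k * m' k j) ∈ M := by
          by_contra h
          exact hM.prime h ht e2
        by_cases hMM : M ∈ 𝓜
        · obtain ⟨k₀, -, hk₀⟩ := hθ M hM hMM
          have hηM' := hηM M hM hMM
          have hm'M : ∀ k, k ≠ k₀ → m' k j ∈ M := fun k hk => by
            rw [hm']
            exact hM.mul_right _ _ (hM.mul_left _ _ (hM.add _ (hk₀ k hk) _ hηM'))
          have e4 : α k₀ * m' k₀ j ∈ M := by
            have : α k₀ * m' k₀ j = (∑ k, α k * m' k j) -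
                ∑ k ∈ Finset.univ.erase k₀, α k * m' k j := by
              rw [← Finset.add_sum_erase _ _ (Finset.mem_univ k₀)]
              abel
            rw [this]
            exact hM.sub e3 (hM.sum _ _ fun k hk =>
              hM.mul_left _ _ (hm'M k (Finset.ne_of_mem_erase hk)))
          have e5 : m' k₀ j * α k₀ ∈ M := by
            by_cases h : α k₀ ∈ M
            · exact hM.mul_left _ _ h
            · by_cases h' : m' k₀ j ∈ M
              · exact hM.mul_right _ _ h'
              · exact absurd e4 (hM.prime h h')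
          apply hω M hM
          have : ω = (m' k₀ j * α k₀ + ∑ k ∈ Finset.univ.erase k₀, m' k j * α k) -
              ((∑ k, m' k j * α k) - ω) := by
            rw [← Finset.add_sum_erase _ _ (Finset.mem_univ k₀)]
            abel
          rw [this]
          exact hM.sub (hM.add _ e5 _ (hM.sum _ _ fun k hk =>
            hM.mul_right _ _ (hm'M k (Finset.ne_of_mem_erase hk)))) e1
        · exact hgood M hM hMM n (fun k => m' k j) α ⟨e1, e3⟩
      obtain ⟨u, b', hu, hb'⟩ := ore_right hR hM (b i) g hgM
      have hsu : s i * u ∈ H := by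
        refine ⟨Pi.single j (t * b'), ?_⟩
        rw [Finset.sum_eq_single j]
        · rw [Pi.single_eq_same, ← mul_assoc, hCg, mul_assoc, ← hb', ← mul_assoc, ← hsb i,
            mul_assoc]
        · intro k _ hk
          rw [Pi.single_eq_of_ne hk, mul_zero]
        · intro h; exact absurd (Finset.mem_univ _) h
      exact hM.prime (hs i) hu (hHM hsu)
    obtain ⟨x, hx⟩ := h1
    exact ⟨x, by rw [hx, mul_one]⟩
  choose x hx using hmem
  have hc0 : c ≠ 0 := by
    intro hc0
    apply hi₀
    rw [← hx i₀]
    refine Finset.sum_eq_zero fun j _ => ?_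
    have : C j = 0 := hι (by rw [← hcC, hc0, zero_mul, map_zero])
    rw [this, zero_mul]
  refine ⟨fun k i => ∑ j, m' k j * x i j, ?_, ?_⟩
  · intro i
    rw [← hx i]
    simp only [hC, Finset.sum_mul, Finset.mul_sum]
    rw [Finset.sum_comm]
    simp only [mul_assoc]
  · intro z hz k
    have key : ∑ i, (∑ j, ι (a j) * ι (x i j)) * ι (z i) = 0 := by
      have h0 : c * ∑ i, (∑ j, ι (a j) * ι (x i j)) * ι (z i) = 0 := by
        rw [Finset.mul_sum]
        have : ∀ i, c * ((∑ j, ι (a j) * ι (x i j)) * ι (z i)) = ι (a i * z i) := by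
          intro i
          rw [← mul_assoc, Finset.mul_sum]
          have : ∀ j, c * (ι (a j) * ι (x i j)) = ι (C j * x i j) := by
            intro j
            rw [← mul_assoc, hcC, map_mul]
          simp only [this]
          rw [← map_sum, hx, map_mul]
        simp only [this]
        rw [← map_sum, hz, map_zero]
      rcases mul_eq_zero.1 h0 with h | h
      · exact absurd h hc0
      · exact h
    apply hι
    rw [map_zero, map_sum]
    have : φ' k * ∑ i, (∑ j, ι (a j) * ι (x i j)) * ι (z i) = 0 := by rw [key, mul_zero]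
    rw [← this, Finset.mul_sum]
    refine Finset.sum_congr rfl fun i _ => ?_
    rw [map_mul, map_sum, ← mul_assoc, Finset.mul_sum]
    congr 1
    refine Finset.sum_congr rfl fun j _ => ?_
    rw [map_mul, ← hφ'm, mul_assoc]

end core


section final

/-- `R` is an exchange ring, in the form of Nicholson: for every `y` there is an idempotent
`e` in `R y` such that `1 - e` lies in `R (1 - y)`.  For instance von Neumann regular rings,
division rings, finite products of these, and the zero ring are exchange rings. -/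
def IsExchange (R : Type u) [Ring R] : Prop :=
  ∀ y : R, ∃ e b c : R, e * e = e ∧ e = b * y ∧ 1 - e = c * (1 - y)

theorem projective_span {R : Type*} {N : Type*} [Ring R] [AddCommGroup N] [Module R N] {n : ℕ}
    (a : Fin n → N) (E : Fin n → Fin n → R) (h1 : ∀ i, ∑ k, E i k • a k = a i)
    (h2 : ∀ x : Fin n → R, ∑ i, x i • a i = 0 → ∀ k, ∑ i, x i * E i k = 0) :
    Module.Projective R (Submodule.span R (Set.range a)) := by
  let f₀ : (Fin n → R) →ₗ[R] N := Fintype.linearCombination R a
  have hf₀ : LinearMap.range f₀ = Submodule.span R (Set.range a) :=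
    Fintype.range_linearCombination R a
  rw [← hf₀]
  let f : (Fin n → R) →ₗ[R] LinearMap.range f₀ := f₀.rangeRestrict
  have hf : Function.Surjective f := f₀.surjective_rangeRestrict
  let φ : (Fin n → R) →ₗ[R] (Fin n → R) :=
    { toFun := fun x k => ∑ i, x i * E i k
      map_add' := by
        intro x y; ext k; simp [add_mul, Finset.sum_add_distrib]
      map_smul' := by
        intro r x; ext k; simp [Finset.mul_sum, mul_assoc] }
  have hker : LinearMap.ker f ≤ LinearMap.ker φ := by
    intro x hx
    rw [LinearMap.mem_ker] at hx ⊢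
    have hx' : f₀ x = 0 := by
      have := congrArg Subtype.val hx
      simpa [f] using this
    ext k
    exact h2 x (by simpa [f₀, Fintype.linearCombination_apply] using hx') k
  let g : LinearMap.range f₀ →ₗ[R] (Fin n → R) :=
    ((LinearMap.ker f).liftQ φ hker).comp (f.quotKerEquivOfSurjective hf).symm.toLinearMap
  have hg : ∀ x, g (f x) = φ x := by
    intro x
    have : (f.quotKerEquivOfSurjective hf).symm (f x) = (LinearMap.ker f).mkQ x := by
      rw [LinearEquiv.symm_apply_eq]
      simp
    simp [g, this]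
  refine Module.Projective.of_split g f ?_
  ext v
  obtain ⟨x, rfl⟩ := hf v
  simp only [LinearMap.comp_apply, LinearMap.id_apply, hg]
  have : f₀ (φ x) = f₀ x := by
    simp only [f₀, Fintype.linearCombination_apply]
    have : ∀ k, φ x k • a k = ∑ i, (x i * E i k) • a k := by
      intro k
      simp only [φ, LinearMap.coe_mk, AddHom.coe_mk, Finset.sum_smul]
    simp only [this]
    rw [Finset.sum_comm]
    refine Finset.sum_congr rfl fun i _ => ?_
    rw [← h1 i, Finset.smul_sum]
    simp only [mul_smul]
  simpa [f] using this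

variable {A : Type u} [Ring A]

theorem LD_of_lattice [IsDomain A]
    (hl : ∀ a b c : Submodule A A, a ⊓ (b ⊔ c) = (a ⊓ b) ⊔ (a ⊓ c)) : LD A := by
  intro a b
  by_cases hab : a + b = 0
  · refine ⟨1, -1, 0, ?_, by simp⟩
    have : a = -b := eq_neg_of_add_eq_zero_left hab
    rw [this]; simp
  · have hmem : a + b ∈ Submodule.span A {a + b} ⊓ (Submodule.span A {a} ⊔ Submodule.span A {b}) := by
      refine ⟨Submodule.mem_span_singleton_self _, ?_⟩
      exact Submodule.add_mem_sup (Submodule.mem_span_singleton_self _)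
        (Submodule.mem_span_singleton_self _)
    rw [hl] at hmem
    obtain ⟨u, hu, v, hv, huv⟩ := Submodule.mem_sup.1 hmem
    obtain ⟨x', hx'⟩ := Submodule.mem_span_singleton.1 hu.1
    obtain ⟨c, hc⟩ := Submodule.mem_span_singleton.1 hu.2
    obtain ⟨y', hy'⟩ := Submodule.mem_span_singleton.1 hv.1
    obtain ⟨d, hd⟩ := Submodule.mem_span_singleton.1 hv.2
    simp only [smul_eq_mul] at hx' hc hy' hd
    have hone : x' + y' = 1 := by
      have : (x' + y' - 1) * (a + b) = 0 := by
        rw [sub_mul, add_mul, hx', hy', huv]; simp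
      rcases mul_eq_zero.1 this with h | h
      · exact sub_eq_zero.1 h
      · exact absurd h hab
    refine ⟨y', d - y', c - x', ?_, ?_⟩
    · have : y' * (a + b) = d * b := by rw [hy', hd]
      rw [sub_mul, ← this]; noncomm_ring
    · have e : 1 - y' = x' := by rw [← hone]; abel
      have : x' * (a + b) = c * a := by rw [hx', hc]
      rw [e, sub_mul, ← this]; noncomm_ring

theorem RD_of_lattice [IsDomain A]
    (hr : ∀ a b c : Submodule Aᵐᵒᵖ A, a ⊓ (b ⊔ c) = (a ⊓ b) ⊔ (a ⊓ c)) : RD A := by
  intro a b
  by_cases hab : a + b = 0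
  · refine ⟨1, -1, 0, ?_, by simp⟩
    have : a = -b := eq_neg_of_add_eq_zero_left hab
    rw [this]; simp
  · have hmem : a + b ∈ Submodule.span Aᵐᵒᵖ {a + b} ⊓
        (Submodule.span Aᵐᵒᵖ {a} ⊔ Submodule.span Aᵐᵒᵖ {b}) := by
      refine ⟨Submodule.mem_span_singleton_self _, ?_⟩
      exact Submodule.add_mem_sup (Submodule.mem_span_singleton_self _)
        (Submodule.mem_span_singleton_self _)
    rw [hr] at hmem
    obtain ⟨u, hu, v, hv, huv⟩ := Submodule.mem_sup.1 hmem
    obtain ⟨x', hx'⟩ := Submodule.mem_span_singleton.1 hu.1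
    obtain ⟨c, hc⟩ := Submodule.mem_span_singleton.1 hu.2
    obtain ⟨y', hy'⟩ := Submodule.mem_span_singleton.1 hv.1
    obtain ⟨d, hd⟩ := Submodule.mem_span_singleton.1 hv.2
    simp only [MulOpposite.smul_eq_mul_unop] at hx' hc hy' hd
    have hone : x'.unop + y'.unop = 1 := by
      have : (a + b) * (x'.unop + y'.unop - 1) = 0 := by
        rw [mul_sub, mul_add, hx', hy', huv]; simp
      rcases mul_eq_zero.1 this with h | h
      · exact absurd h hab
      · exact sub_eq_zero.1 h
    refine ⟨y'.unop, d.unop - y'.unop, c.unop - x'.unop, ?_, ?_⟩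
    · have : (a + b) * y'.unop = b * d.unop := by rw [hy', hd]
      rw [mul_sub, ← this]; noncomm_ring
    · have e : 1 - y'.unop = x'.unop := by rw [← hone]; abel
      have : (a + b) * x'.unop = a * c.unop := by rw [hx', hc]
      rw [e, mul_sub, ← this]; noncomm_ring

theorem IsRes.comm_one {M : Set A} (h : IsRes A M) {x y : A} (hxy : x * y - 1 ∈ M) :
    y * x - 1 ∈ M := by
  have hx : x ∉ M := by
    intro hx
    apply h.one
    have := h.sub (h.mul_right y _ hx) hxy
    simpa using this
  obtain ⟨z, hz1, hz2⟩ := h.inv x hx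
  have e : y * x - 1 = -((z * x - 1) * (y * x)) + z * (x * y - 1) * x + (z * x - 1) := by
    noncomm_ring
  rw [e]
  exact h.add _ (h.add _ (h.neg (h.mul_right _ _ hz2)) _
    (h.mul_right _ _ (h.mul_left _ _ hxy))) _ hz2

theorem exch_fin (J : Ideal A)
    (hE : ∀ y : A, ∃ e b c : A, e * e - e ∈ J ∧ e - b * y ∈ J ∧ (1 - e) - c * (1 - y) ∈ J) :
    ∀ (n : ℕ) (y : Fin n → A), (∑ k, y k) - 1 ∈ J → ∃ θ : Fin n → A,
      ∀ M, IsRes A M → (J : Set A) ⊆ M → ∃ k₀, (θ k₀ * y k₀ - 1 ∈ M) ∧ ∀ k, k ≠ k₀ → θ k ∈ M := by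
  intro n
  induction n with
  | zero =>
    intro y hy
    refine ⟨fun _ => 0, fun M hM hJM => ?_⟩
    exfalso
    apply hM.one
    have : (0 : A) - 1 ∈ M := by simpa using hJM hy
    have := hM.neg this
    simpa using this
  | succ n ih =>
    intro y hy
    rcases n with _ | m
    · refine ⟨fun _ => 1, fun M hM hJM => ⟨0, ?_, ?_⟩⟩
      · have := hJM hy
        simpa using this
      · intro k hk
        exact absurd (Fin.fin_one_eq_zero k) hk
    · obtain ⟨e, b, c, he, heb, hec⟩ := hE (y 0)
      let y' : Fin (m + 1) → A := fun k => c * y k.succ + (if k = 0 then e else 0)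
      have hy' : (∑ k, y' k) - 1 ∈ J := by
        rw [Fin.sum_univ_succ] at hy
        have e1 : ∑ k, y' k = c * (∑ k : Fin (m + 1), y k.succ) + e := by
          simp only [y', Finset.sum_add_distrib, Finset.mul_sum]
          simp
        have e2 : c * (∑ k : Fin (m + 1), y k.succ) + e - 1 =
            -((1 - e) - c * (1 - y 0)) + c * (y 0 + (∑ k : Fin (m + 1), y k.succ) - 1) := by
          noncomm_ring
        rw [e1, e2]
        exact J.add_mem (J.neg_mem hec) (J.mul_mem_left _ hy)
      obtain ⟨θ', hθ'⟩ := ih y' hy'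
      refine ⟨Fin.cons (e * b) (fun k => (1 - e) * θ' k * c), fun M hM hJM => ?_⟩
      obtain ⟨k₀, hk₀, hk⟩ := hθ' M hM hJM
      by_cases heM : e ∈ M
      · refine ⟨k₀.succ, ?_, ?_⟩
        · simp only [Fin.cons_succ]
          have e3 : (1 - e) * θ' k₀ * c * y k₀.succ - 1 =
              (θ' k₀ * y' k₀ - 1) - θ' k₀ * (if k₀ = 0 then e else 0)
                - e * (θ' k₀ * c * y k₀.succ) := by
            simp only [y']
            noncomm_ring
          rw [e3]
          refine hM.sub (hM.sub hk₀ (hM.mul_left _ _ ?_)) (hM.mul_right _ _ heM)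
          split_ifs
          · exact heM
          · exact hM.zero
        · intro k
          refine Fin.cases ?_ (fun k => ?_) k
          · intro _
            simp only [Fin.cons_zero]
            exact hM.mul_right _ _ heM
          · intro hne
            simp only [Fin.cons_succ]
            refine hM.mul_right _ _ (hM.mul_left _ _ (hk k ?_))
            intro h; exact hne (by rw [h])
      · have h1e : 1 - e ∈ M := by
          by_contra h
          have := hM.prime heM h
          apply this
          have := hM.neg (hJM he)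
          have e4 : e * (1 - e) = -(e * e - e) := by noncomm_ring
          rwa [e4]
        refine ⟨0, ?_, ?_⟩
        · simp only [Fin.cons_zero]
          have e5 : e * b * y 0 - 1 = -(e * (e - b * y 0)) + (e * e - e) - (1 - e) := by
            noncomm_ring
          rw [e5]
          exact hM.sub (hM.add _ (hM.neg (hM.mul_left _ _ (hJM heb))) _ (hJM he)) h1e
        · intro k
          refine Fin.cases ?_ (fun k => ?_) k
          · intro h; exact absurd rfl h
          · intro _
            simp only [Fin.cons_succ]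
            exact hM.mul_right _ _ (hM.mul_right _ _ h1e)

theorem isMaximal_of_isRes {M : Set A} (hM : IsRes A M) :
    ∃ M' : Ideal A, (M' : Set A) = M ∧ M'.IsMaximal := by
  let M' : Ideal A :=
    { carrier := M
      zero_mem' := hM.zero
      add_mem' := fun {x y} hx hy => hM.add x hx y hy
      smul_mem' := fun c x hx => hM.mul_left c x hx }
  refine ⟨M', rfl, ?_⟩
  rw [Ideal.isMaximal_iff]
  refine ⟨hM.one, ?_⟩
  intro K x hK hx hxK
  obtain ⟨y, -, hy⟩ := hM.inv x hx
  have h1 := K.sub_mem (K.mul_mem_left y hxK) (hK (show y * x - 1 ∈ M' from hy))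
  simpa using h1

/-- Let `A` be a domain, left and right distributive.  Let `J` be a two-sided ideal with `A / J`
an exchange ring (the whole ring `J = A` and maximal `J` are allowed), and `ω` a unit of `A` such
that for every maximal left ideal `M` (these are two-sided and `A / M` is a division ring) that
does not contain `J`, the image of `ω` in `A / M` is not a sum of commutators.  Then `A` is
semihereditary on both sides.

* `J = A`, `ω = 1`: in no residue division ring `A / M` is `1` a sum of commutators; this covers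
  the rings with `A / J(A)` commutative, and those whose residue division rings are finite
  dimensional over centres of characteristic zero.
* `J = J(A)` (Jacobson radical): `A / J(A)` is an exchange ring; this covers semilocal `A` and
  `A` with `A / J(A)` von Neumann regular. -/
theorem result (A : Type u) [Ring A] [IsDomain A]
    (hl : ∀ a b c : Submodule A A, a ⊓ (b ⊔ c) = (a ⊓ b) ⊔ (a ⊓ c))
    (hr : ∀ a b c : Submodule Aᵐᵒᵖ A, a ⊓ (b ⊔ c) = (a ⊓ b) ⊔ (a ⊓ c))
    (J : Ideal A) [J.IsTwoSided] (hJ : IsExchange (A ⧸ J))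
    (ω : A) (hω : IsUnit ω)
    (hM : ∀ M : Ideal A, M.IsMaximal → ¬ J ≤ M →
      ω ∉ M.toAddSubgroup ⊔ AddSubgroup.closure {z : A | ∃ x y : A, z = x * y - y * x}) :
    (∀ I : Submodule A A, I.FG → Module.Projective A I) ∧
    (∀ I : Submodule Aᵐᵒᵖ A, I.FG → Module.Projective Aᵐᵒᵖ I) := by
  have hL := LD_of_lattice hl
  have hR := RD_of_lattice hr
  have hE : ∀ y : A, ∃ e b c : A, e * e - e ∈ J ∧ e - b * y ∈ J ∧ (1 - e) - c * (1 - y) ∈ J := by
    intro y
    obtain ⟨e, b, c, h1, h2, h3⟩ := hJ (Ideal.Quotient.mk J y)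
    obtain ⟨e, rfl⟩ := Ideal.Quotient.mk_surjective e
    obtain ⟨b, rfl⟩ := Ideal.Quotient.mk_surjective b
    obtain ⟨c, rfl⟩ := Ideal.Quotient.mk_surjective c
    refine ⟨e, b, c, ?_, ?_, ?_⟩
    · rw [← Ideal.Quotient.eq, map_mul, h1]
    · rw [← Ideal.Quotient.eq, map_mul, h2]
    · rw [← Ideal.Quotient.eq, map_mul, map_sub, map_sub, map_one, h3]
  have hgood : ∀ M, IsRes A M → ¬ ((J : Set A) ⊆ M) → ∀ (n : ℕ) (m α : Fin n → A),
      ¬ ((∑ k, m k * α k) - ω ∈ M ∧ (∑ k, α k * m k) ∈ M) := by
    rintro M hMr hJM n m α ⟨h1, h2⟩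
    obtain ⟨M', hM', hmax⟩ := isMaximal_of_isRes hMr
    apply hM M' hmax (fun h => hJM (by rw [← hM']; exact h))
    have e : ω = (-((∑ k, m k * α k) - ω) + (∑ k, α k * m k)) +
        ∑ k, (m k * α k - α k * m k) := by
      rw [Finset.sum_sub_distrib]; abel
    rw [e]
    refine AddSubgroup.add_mem_sup ?_ ?_
    · have : -((∑ k, m k * α k) - ω) + (∑ k, α k * m k) ∈ M := hMr.add _ (hMr.neg h1) _ h2
      rw [← hM'] at this
      exact this
    · exact AddSubgroup.sum_mem _ fun k _ => AddSubgroup.subset_closure ⟨_, _, rfl⟩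
  have hωM : ∀ M, IsRes A M → ω ∉ M := by
    intro M hMr h
    obtain ⟨u, rfl⟩ := hω
    apply hMr.one
    have := hMr.mul_left (↑u⁻¹) _ h
    simpa using this
  have hbad := fun (n : ℕ) (y : Fin n → A) (hy : ∑ k, y k = 1) =>
    exch_fin J hE n y (by rw [hy, sub_self]; exact J.zero_mem)
  constructor
  · -- left ideals: apply `core` to the opposite ring
    intro I hI
    obtain ⟨n, a, rfl⟩ := Submodule.fg_iff_exists_fin_generating_family.1 hI
    obtain ⟨E, hE1, hE2⟩ := core (RD_op hL) (LD_op hR)
      {M : Set Aᵐᵒᵖ | (J : Set A) ⊆ MulOpposite.op ⁻¹' M} (MulOpposite.op ω)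
      (fun M hMr h => hωM _ (isRes_unop hMr) h)
      (by
        rintro M hMr hJM n m α ⟨h1, h2⟩
        refine hgood _ (isRes_unop hMr) hJM n (fun k => (α k).unop) (fun k => (m k).unop) ⟨?_, ?_⟩
        · simp only [Set.mem_preimage]
          convert h1 using 1
          simp
        · simp only [Set.mem_preimage]
          convert h2 using 1
          simp)
      (by
        intro n y hy
        obtain ⟨θ, hθ⟩ := hbad n (fun k => (y k).unop) (by
          have := congrArg MulOpposite.unop hy
          simpa using this)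
        refine ⟨fun k => MulOpposite.op (θ k), fun M hMr hJM => ?_⟩
        obtain ⟨k₀, h1, h2⟩ := hθ _ (isRes_unop hMr) hJM
        refine ⟨k₀, ?_, fun k hk => h2 k hk⟩
        have h3 := (isRes_unop hMr).comm_one h1
        simp only [Set.mem_preimage] at h3
        convert h3 using 1
        simp)
      n (fun k => MulOpposite.op (a k))
    refine projective_span a (fun i k => (E k i).unop) ?_ ?_
    · intro i
      have := congrArg MulOpposite.unop (hE1 i)
      simpa using this
    · intro x hx k
      have := congrArg MulOpposite.unop (hE2 (fun i => MulOpposite.op (x i)) (by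
        apply MulOpposite.unop_injective
        simpa using hx) k)
      simpa using this
  · intro I hI
    obtain ⟨n, a, rfl⟩ := Submodule.fg_iff_exists_fin_generating_family.1 hI
    obtain ⟨E, hE1, hE2⟩ := core hR hL {M : Set A | (J : Set A) ⊆ M} ω hωM hgood hbad n a
    refine projective_span a (fun i k => MulOpposite.op (E k i)) ?_ ?_
    · intro i
      simpa using hE1 i
    · intro x hx k
      apply MulOpposite.unop_injective
      have := hE2 (fun i => (x i).unop) (by simpa using hx) k
      simpa using this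

end final

end Pool.Agent.Results.MP_b53a41_al.TraceExchange
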