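import Mathlib
import Pool.Agent.H34.Dist.Fin

/-!
# Distributive domains whose wild maximal ideals have finitely many components

Partial answer to Q1 of MP_b53a41_al.

For a maximal one-sided ideal `M` of a left and right distributive domain `A` (it is two-sided)
let `V_M` be the localization.  Call `M` wild if `V_N V_M` is not contained in `V_M V_N` for some
maximal ideal `N`.  Suppose that for every nonzero `a` in `A` there are finitely many completely
prime ideals `p`, all containing `a`, such that every wild maximal ideal through `a` contains one
of them.  Then `A` is semihereditary.  For instance this holds if the space of maximal ideals is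
Noetherian: if `Y` is an irreducible closed set of maximal ideals, then the intersection of the
members of `Y` is completely prime.

Idea of the proof (for the opposite ring).  Let `K = ∑ q_i A` be a finitely generated projective
right `A`-submodule of the division ring of fractions, `L = {x | x K ⊆ A}`,
`P` the set of all `M` with `L ⊆ M` and `Z` the set of all `M` with `1 ∉ K V_M`; these closed sets
are disjoint.  There is `θ` in `L + K L` that is a unit of the endomorphism ring of `A + K` at all
points of `P` and `Z`.  Let `W` be the closed set of all other points at which it is not a unit.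
A point `y` of `W` is in conflict with `P` if `θ⁻¹ ∉ V_x V_y` for some `x` in `P`.
Since the right `V_y`-submodules form a chain, a conflict with `P` excludes any obstruction
between `y` and `Z`, and if `y`, `y'` in `W` contain the same completely prime ideal `p`, which
contains a suitable multiple of `θ`, then either both or none of them are in conflict with `P`.
So there is a closed subset `W₁` of `W` without conflicts such that all points of `W` outside
`W₁` are tame or in conflict with `P`.  One first finds `μ₁` in `L` with `(1 - μ₁) θ⁻¹` integral on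
`W₁`, and then `κ = μ₁ + ∑ q_i μ_{2,i}` in `L + K L` with `(1 - κ) θ⁻¹` in the endomorphism ring of
`A + K`; hence `1` is in `L + K L`.
-/

universe u

namespace Pool.Agent.Results.MP_b53a41_al.WildComponents

open Pool.Agent.H8.Dist Pool.Agent.H34.Dist

/-- The maximal left ideal `M` is wild: there are a maximal left ideal `N`, an element `s ∉ M` and
an element `t ∉ N` such that the right ideal `s t A` contains no product `t' s'` with `t' ∉ N` and
`s' ∉ M`. -/
def IsWild {A : Type u} [Ring A] (M : Ideal A) : Prop :=
  ∃ N : Ideal A, N.IsMaximal ∧ ∃ s, s ∉ M ∧ ∃ t, t ∉ N ∧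
    ∀ t' s' c : A, t' ∉ N → s' ∉ M → t' * s' ≠ s * t * c

/-- Let `A` be a domain, left and right distributive.  Suppose that for every nonzero `a` in `A`
there is a finite set `S` of left ideals `p` that contain `a` and are completely prime
(`x y ∈ p` implies `x ∈ p` or `y ∈ p`), such that every wild maximal left ideal `M` of `A` with
`a ∈ M` contains a member of `S`.  Then all finitely generated left ideals and all finitely
generated right ideals of `A` are projective. -/
theorem result (A : Type u) [Ring A] [IsDomain A]
    (hl : ∀ a b c : Submodule A A, a ⊓ (b ⊔ c) = (a ⊓ b) ⊔ (a ⊓ c))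
    (hr : ∀ a b c : Submodule Aᵐᵒᵖ A, a ⊓ (b ⊔ c) = (a ⊓ b) ⊔ (a ⊓ c))
    (hfin : ∀ a : A, a ≠ 0 → ∃ S : Set (Ideal A), S.Finite ∧
      (∀ p ∈ S, a ∈ p ∧ ∀ x y, x * y ∈ p → x ∈ p ∨ y ∈ p) ∧
      ∀ M : Ideal A, M.IsMaximal → IsWild M → a ∈ M → ∃ p ∈ S, p ≤ M) :
    (∀ I : Submodule A A, I.FG → Module.Projective A I) ∧
    (∀ I : Submodule Aᵐᵒᵖ A, I.FG → Module.Projective Aᵐᵒᵖ I) := by
  classical
  have hL := LD_of_lattice hl
  have hR := RD_of_lattice hr
  have hcov : Cov Aᵐᵒᵖ := by
    intro a ha
    obtain ⟨S, hS, h1, h2⟩ := hfin a.unop (fun h => ha (MulOpposite.unop_injective (by simpa using h)))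
    refine ⟨hS.toFinset.image (fun p : Ideal A => (MulOpposite.unop ⁻¹' (p : Set A) : Set Aᵐᵒᵖ)),
      ?_, ?_⟩
    · intro M hM haM hT
      have hM' := isRes_unop hM
      obtain ⟨M', hMM', hmax⟩ := isMaximal_of_isRes hM'
      have hmem : ∀ x, x ∈ M' ↔ MulOpposite.op x ∈ M := by
        intro x
        rw [← SetLike.mem_coe, hMM']
        rfl
      have hwild : IsWild M' := by
        unfold Tame' at hT
        push Not at hT
        obtain ⟨N, hN, s, hs, t, ht, h⟩ := hT
        obtain ⟨N', hNN', hmaxN⟩ := isMaximal_of_isRes (isRes_unop hN)
        have hmemN : ∀ x, x ∈ N' ↔ MulOpposite.op x ∈ N := by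
          intro x
          rw [← SetLike.mem_coe, hNN']
          rfl
        refine ⟨N', hmaxN, s.unop, ?_, t.unop, ?_, ?_⟩
        · rw [hmem]; exact hs
        · rw [hmemN]; exact ht
        · intro t' s' c ht' hs' heq
          rw [hmemN] at ht'
          rw [hmem] at hs'
          apply h _ ht' _ hs' (MulOpposite.op c)
          apply MulOpposite.unop_injective
          simpa [mul_assoc] using heq
      obtain ⟨p, hp, hpM⟩ := h2 M' hmax hwild (by rw [hmem]; exact haM)
      refine ⟨_, Finset.mem_image.2 ⟨p, hS.mem_toFinset.2 hp, rfl⟩, ?_⟩
      intro x hx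
      have : x.unop ∈ M' := hpM hx
      rw [hmem] at this
      exact this
    · intro C hC M M' hM hM' haM haM' hCM hCM' x s b hs hxs
      obtain ⟨p, hp, rfl⟩ := Finset.mem_image.1 hC
      obtain ⟨hap, hprime⟩ := h1 p (hS.mem_toFinset.1 hp)
      have h3 : s.unop * x.unop ∈ p := by
        have : s.unop * x.unop = b.unop * a.unop := by
          have := congrArg MulOpposite.unop hxs
          simpa using this
        rw [this]
        exact p.mul_mem_left _ hap
      rcases hprime _ _ h3 with h | h
      · exact absurd (hCM h) hs
      · exact hCM' h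
  obtain ⟨D, _, ι, hι, hDB, hDBl⟩ := all_of_op hR hL hcov
  constructor
  · intro I hI
    obtain ⟨n, b, rfl⟩ := Submodule.fg_iff_exists_fin_generating_family.1 hI
    exact proj_left ι hι b (hDBl b)
  · intro I hI
    obtain ⟨n, b, rfl⟩ := Submodule.fg_iff_exists_fin_generating_family.1 hI
    exact proj_right ι hι b (hDB b)

end Pool.Agent.Results.MP_b53a41_al.WildComponents
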